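import Pool.Agent.Helper4.CI.Goals

/-!
# MP_aa7fc1_ag, packet M4: the multiplicity of the slice as a sum over simplices
-/

namespace Mono.CI.M4

open Finset Filter Topology Pointwise Mono Mono.CI

variable {N k : ℕ}

theorem cellsC_sub {A : Option (Fin k) → Finset (Fin N → ℤ)} {K : Finset (Fin N)} {b : Fin N → ℝ}
    {φ : Option (Fin k) → Finset (Fin N → ℤ)} (h : φ ∈ cellsC A K b) (c : Option (Fin k)) :
    φ c ⊆ A c := by
  classical
  unfold cellsC at h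
  rw [Finset.mem_filter, Fintype.mem_piFinset] at h
  exact Finset.mem_powerset.1 (h.1 c)

theorem cay_mono {A φ : Option (Fin k) → Finset (Fin N → ℤ)} (h : ∀ c, φ c ⊆ A c)
    (C : Finset (Option (Fin k))) : cay φ C ⊆ cay A C := by
  classical
  unfold cay
  intro v hv
  rw [Finset.mem_biUnion] at hv ⊢
  obtain ⟨c, hc, hv⟩ := hv
  exact ⟨c, hc, Finset.image_subset_image (h c) hv⟩

theorem mem_cols {ρ : Finset (Fin (N + k) → ℤ)} {c : Option (Fin k)} :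
    c ∈ cols ρ ↔ ∃ v ∈ ρ, ∀ j, v (Fin.natAdd N j) = ind c j := by
  unfold cols
  simp

theorem cellSumC (h4 : Chi1Sum) (h1 : LatEq) (h2 : CellOf) (h3 : CellUnique) (hS : ScaleRel) :
    CellSumC := by
  classical
  intro N k A b L b' Z Φ' Φ hT K m
  obtain ⟨-, -, -, -, -, hH, -⟩ := hS N k A b L b' Z Φ' Φ hT
  have hZH : Z ⊆ Hset A Z := by
    unfold Hset
    exact Finset.subset_union_left
  have hnone : ∀ φ ∈ cellsC A K b, ∀ τ : Finset (Fin (N + k) → ℤ), τ \ Z ⊆ cay φ univ →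
      (none ∈ cols (τ \ Z) ↔ ¬ τ ⊆ Hset A Z) := by
    intro φ hφ τ hτ
    have hsub : τ \ Z ⊆ cay A univ := hτ.trans (cay_mono (cellsC_sub hφ) _)
    rw [mem_cols]
    constructor
    · rintro ⟨v, hv, hv0⟩ hle
      have h := (hH v (hsub hv)).2 fun j => by rw [hv0 j]; rfl
      exact h (hle (Finset.mem_sdiff.1 hv).1)
    · intro hle
      obtain ⟨v, hv, hvH⟩ := Finset.not_subset.1 hle
      have hvZ : v ∈ τ \ Z := Finset.mem_sdiff.2 ⟨hv, fun h => hvH (hZH h)⟩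
      exact ⟨v, hvZ, fun j => ((hH v (hsub hvZ)).1 hvH j).trans rfl⟩
  have hL : ∑ φ ∈ (cellsC A K b).filter (fun φ => dimC (prC K φ) + 1 = (csC (prC K φ)).card ∧
      m ∣ latC (prC K φ)), chi1 (prC K φ) =
      ∑ φ ∈ (cellsC A K b).filter (fun φ => dimC (prC K φ) + 1 = (csC (prC K φ)).card ∧
      m ∣ latC (prC K φ)), ∑ ρ ∈ Φ.faces.filter (fun ρ => ρ ∩ Z = eK (Kh k K) ∧
        ρ \ Z ⊆ cay φ univ ∧ none ∈ cols (ρ \ Z) ∧
        (ρ \ Z).card = dimC (prC K φ) + (cols (ρ \ Z)).card),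
      (-1) ^ ((ρ \ Z).card - 1) * (volZ (Hset A Z) ρ : ℤ) :=
    Finset.sum_congr rfl fun φ hφ => h4 N k A b L b' Z Φ' Φ hT K φ (Finset.mem_filter.1 hφ).1
  rw [hL]
  rw [Finset.sum_comm' (s' := fun τ => (cellsC A K b).filter (fun φ => τ \ Z ⊆ cay φ univ ∧
      (τ \ Z).card = dimC (prC K φ) + (cols (τ \ Z)).card ∧
      dimC (prC K φ) + 1 = (csC (prC K φ)).card))
    (t' := Φ.faces.filter (fun τ => τ ∩ Z = eK (Kh k K) ∧ ¬ τ ⊆ Hset A Z ∧
      τ.card = (cs τ).card ∧ m ∣ latDistZ (Hset A Z) τ))]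
  · refine Finset.sum_congr rfl fun τ hτ => ?_
    obtain ⟨hf, hK, hZ, hc, hm⟩ := Finset.mem_filter.1 hτ
    obtain ⟨φ, g1, g2, g3, g4⟩ := h2 N k A b L b' Z Φ' Φ hT K τ hf hK hZ hc
    have hn := (hnone φ g1 τ g2).2 hZ
    have hset : (cellsC A K b).filter (fun φ => τ \ Z ⊆ cay φ univ ∧
      (τ \ Z).card = dimC (prC K φ) + (cols (τ \ Z)).card ∧
      dimC (prC K φ) + 1 = (csC (prC K φ)).card) = {φ} := by
      ext ψ
      rw [Finset.mem_filter, Finset.mem_singleton]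
      constructor
      · rintro ⟨f1, f2, f3, f4⟩
        exact h3 N k A b L b' Z Φ' Φ hT K τ hf hK hn ψ f1 φ g1 f2 g2 f3 g3 f4 g4
      · rintro rfl
        exact ⟨g1, g2, g3, g4⟩
    rw [hset, Finset.sum_singleton]
  · intro φ τ
    simp only [Finset.mem_filter]
    constructor
    · rintro ⟨⟨e1, e2, e3⟩, e4, e5, e6, e7, e8⟩
      obtain ⟨f1, f2⟩ := h1 N k A b L b' Z Φ' Φ hT K φ e1 τ e4 e5 e6 e7 e8
      exact ⟨⟨e1, e6, e8, e2⟩, e4, e5, (hnone φ e1 τ e6).1 e7, f2 e2, f1 ▸ e3⟩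
    · rintro ⟨⟨e1, e6, e8, e2⟩, e4, e5, e7, e9, e10⟩
      have hn := (hnone φ e1 τ e6).2 e7
      obtain ⟨f1, f2⟩ := h1 N k A b L b' Z Φ' Φ hT K φ e1 τ e4 e5 e6 hn e8
      exact ⟨⟨e1, e2, f1 ▸ e10⟩, e4, e5, e6, hn, e8⟩

end Mono.CI.M4
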